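import Pool.Agent.W_MP_73c65d_al.Main

namespace Pool.Agent.Results.MP_73c65d_al.OnlyFive

open Pool.Agent.W_MP_73c65d_al

/-- For `(p,q,r) = (2,3,5)` and every commutator word of the (infinite) family `u_b`, `b` in the
free group, the only admissible `n` is `5`. -/
theorem result :
    (∀ b : F, word b ∈ commutator F ∧ {n : ℕ | Admissible 2 3 5 (word b) n} = {5}) ∧
      (Set.range word).Infinite :=
  ⟨fun b => ⟨word_mem_commutator b, admissible_set b⟩, range_word_infinite⟩

end Pool.Agent.Results.MP_73c65d_al.OnlyFive
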