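import Pool.Agent.W_MP_73c65d_al.Win27

namespace Pool.Agent.Results.MP_73c65d_al.PrescribedWindow

open Pool.Agent.W_MP_73c65d_al

/-- The admissible `n ≤ N`, and the finite quotients of order at most `N`, of the groups
`⟨x, y, z | x^p, y^q, z^r, xyz w⟩` can be prescribed, for a whole coset of commutator words `w`
and for all triples of distinct primes at once. -/
theorem result (N : ℕ) (S : Set ℕ) :
    ∃ u ∈ commutator F, ∃ M : Subgroup F, M.Normal ∧ M.FiniteIndex ∧
      ∀ w ∈ commutator F, u⁻¹ * w ∈ M → ∀ p q r : ℕ, p.Prime → q.Prime → r.Prime →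
        p ≠ q → p ≠ r → q ≠ r →
          (∀ n ≤ N, Admissible p q r w n ↔
            n ∈ S ∧ 5 ≤ n ∧ Generated p q r (alternatingGroup (Fin n))) ∧
          ∀ (G : Type*) [Group G] [Finite G] [Nontrivial G], Nat.card G ≤ N →
            IsQuotient p q r w G → ∃ n ∈ S, 5 ≤ n ∧
              ∃ f : G →* alternatingGroup (Fin n), Function.Surjective f :=
  Win27.window N S

end Pool.Agent.Results.MP_73c65d_al.PrescribedWindow
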