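import Pool.Agent.W_MP_73c65d_al.Mea27

namespace Pool.Agent.Results.MP_73c65d_al.RandomWords

open Pool.Agent.W_MP_73c65d_al

/-- The law of the set of admissible `n` for `(p, q, r) = (2, 3, 5)` and random commutator words:
almost all words have only finitely many admissible `n`, and each finite set of possible degrees,
the empty one included, is the set of all admissible `n` with positive proportion. -/
theorem result :
    (∀ ε : ℝ, 0 < ε → ∃ n₀ : ℕ, ∀ N : ℕ, AtLeast (1 - ε)
      (fun w => ∀ n, n₀ ≤ n → n ≤ N → ¬ Admissible 2 3 5 w n)) ∧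
    ∀ S : Finset ℕ, (∀ n ∈ S, 5 ≤ n ∧ Generated 2 3 5 (alternatingGroup (Fin n))) →
      ∃ c : ℝ, 0 < c ∧ ∀ N : ℕ, AtLeast c (fun w => ∀ n ≤ N, (Admissible 2 3 5 w n ↔ n ∈ S)) :=
  ⟨Mea27.finite_part, Mea27.law_part⟩

end Pool.Agent.Results.MP_73c65d_al.RandomWords
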